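import Mathlib
import Pool.Agent.H770R2.Spec.Props

/-!
The limit operators are idempotent (`P_idem`), from `P_lim` and `P_liou`.
-/

open scoped ComplexOrder InnerProductSpace
open Filter

noncomputable section

namespace H770R2.Spec

/-- Bound for the exponentials of an element between `0` and `1`. -/
theorem Idem_norm_exp {A : Type} [CStarAlgebra A] [PartialOrder A] [StarOrderedRing A]
    [Nontrivial A] (e : A) (h0 : 0 ≤ e) (h1 : e ≤ 1) (z : ℂ) :
    ‖NormedSpace.exp (z • e)‖ ≤ max 1 (Real.exp z.re) := by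
  have hsa : IsSelfAdjoint e := IsSelfAdjoint.of_nonneg h0
  have hn : IsStarNormal e := hsa.isStarNormal
  have hn' : IsStarNormal (z • e) := by infer_instance
  rw [← CFC.complex_exp_eq_normedSpace_exp (a := z • e), ← cfc_comp_smul z Complex.exp e]
  refine norm_cfc_le (by positivity) fun x hx => ?_
  have hxr : x = (x.re : ℂ) := hsa.mem_spectrum_eq_re hx
  have hx0 : (0 : ℂ) ≤ x := spectrum_nonneg_of_nonneg h0 hx
  have hx1 : ‖x‖ ≤ 1 :=
    (spectrum.norm_le_norm_of_mem hx).trans ((CStarAlgebra.norm_le_one_iff_of_nonneg e h0).2 h1)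
  have hre0 : 0 ≤ x.re := (Complex.le_def.1 hx0).1
  have hre1 : x.re ≤ 1 := (Complex.re_le_norm x).trans hx1
  have him : x.im = 0 := by rw [hxr]; simp
  have e1 : ‖Complex.exp (z • x)‖ = Real.exp (z.re * x.re) := by
    rw [Complex.norm_exp]
    congr 1
    simp [him]
  rw [e1]
  rcases le_total 0 z.re with hz | hz
  · refine le_trans ?_ (le_max_right _ _)
    exact Real.exp_le_exp.2 (by nlinarith)
  · refine le_trans ?_ (le_max_left _ _)
    rw [← Real.exp_zero]
    exact Real.exp_le_exp.2 (by nlinarith)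

/-- An operator bounded below together with its adjoint is invertible. -/
theorem Idem_inv {H : Type} [NormedAddCommGroup H] [InnerProductSpace ℂ H] [CompleteSpace H]
    (G : H →L[ℂ] H) (m : ℝ) (hm : 0 < m) (h1 : ∀ ξ, ‖ξ‖ ≤ m * ‖G ξ‖)
    (h2 : ∀ ξ, ‖ξ‖ ≤ m * ‖star G ξ‖) :
    ∃ r : H →L[ℂ] H, r * G = 1 ∧ G * r = 1 ∧ ‖r‖ ≤ m := by
  have hinj : G.ker = ⊥ := by
    rw [LinearMap.ker_eq_bot']
    intro ξ hξ
    have := h1 ξ
    have h3 : G ξ = 0 := hξ
    rw [h3, norm_zero, mul_zero] at this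
    exact norm_le_zero_iff.1 this
  have hinj' : (star G).ker = ⊥ := by
    rw [LinearMap.ker_eq_bot']
    intro ξ hξ
    have := h2 ξ
    have h3 : star G ξ = 0 := hξ
    rw [h3, norm_zero, mul_zero] at this
    exact norm_le_zero_iff.1 this
  have hanti : AntilipschitzWith ⟨m, hm.le⟩ G :=
    AddMonoidHomClass.antilipschitz_of_bound G (by intro x; exact h1 x)
  have hclosed : IsClosed (Set.range G) := hanti.isClosed_range G.uniformContinuous
  have hsurj : G.range = ⊤ := by
    have h4 : (G.range)ᗮ = ⊥ := by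
      rw [ContinuousLinearMap.orthogonal_range]
      exact hinj'
    have h5 := Submodule.topologicalClosure_eq_top_iff.2 h4
    have h6 : IsClosed (G.range : Set H) := by
      convert hclosed
      ext x
      simp
    rw [IsClosed.submodule_topologicalClosure_eq h6] at h5
    exact h5
  let E := ContinuousLinearEquiv.ofBijective G hinj hsurj
  have hE : ∀ x, E x = G x := fun x => rfl
  refine ⟨(E.symm : H →L[ℂ] H), ?_, ?_, ?_⟩
  · ext x
    show E.symm (G x) = x
    rw [← hE x, E.symm_apply_apply]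
  · ext x
    show G (E.symm x) = x
    rw [← hE, E.apply_symm_apply]
  · refine ContinuousLinearMap.opNorm_le_bound _ hm.le fun x => ?_
    have := h1 (E.symm x)
    rw [← hE, E.apply_symm_apply] at this
    exact this

theorem prove_idem (h1 : P_lim) (h2 : P_liou) : P_idem := by
  intro A _ _ _ _ H _ _ _ w C K hw e he
  obtain ⟨Q, hQ, hQ', hz⟩ := h1 A H w C hw.bdd e he
  refine ⟨Q, ?_, hQ⟩
  refine h2 (H →L[ℂ] H) Q (max K 1) fun w0 hw0 => ?_
  have hne : (1 + w0) ≠ 0 := by
    intro h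
    exact hw0 (by linear_combination h)
  set z := Complex.log (1 + w0) with hzdef
  have hexp : Complex.exp z = 1 + w0 := Complex.exp_log hne
  have hnorm : 0 < ‖1 + w0‖ := norm_pos_iff.2 hne
  have hre : Real.exp (-z.re) = ‖1 + w0‖⁻¹ := by
    rw [hzdef, Complex.log_re, Real.exp_neg, Real.exp_log hnorm]
  have hK1 : (0 : ℝ) < max K 1 := lt_of_lt_of_le one_pos (le_max_right _ _)
  set m : ℝ := max K 1 * max 1 (‖1 + w0‖⁻¹) with hm
  have hmpos : 0 < m := mul_pos hK1 (lt_of_lt_of_le one_pos (le_max_left _ _))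
  -- the units
  let _ : NormedAlgebra ℚ A := NormedAlgebra.restrictScalars ℚ ℂ A
  have hunit : ∀ n, ∃ a : Aˣ, (a : A) = NormedSpace.exp (z • e n) ∧
      ((a⁻¹ : Aˣ) : A) = NormedSpace.exp (-(z • e n)) := by
    intro n
    refine ⟨⟨NormedSpace.exp (z • e n), NormedSpace.exp (-(z • e n)), ?_, ?_⟩, rfl, rfl⟩
    · rw [← NormedSpace.exp_add_of_commute (Commute.refl (z • e n)).neg_right, add_neg_cancel,
        NormedSpace.exp_zero]
    · rw [← NormedSpace.exp_add_of_commute (Commute.refl (z • e n)).neg_left, neg_add_cancel,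
        NormedSpace.exp_zero]
  have hinvn : ∀ n, ∀ a : Aˣ, ((a⁻¹ : Aˣ) : A) = NormedSpace.exp (-(z • e n)) →
      K * ‖((a⁻¹ : Aˣ) : A)‖ ≤ m := by
    intro n a ha
    rw [ha, ← neg_smul]
    have h3 := Idem_norm_exp (e n) (he.nonneg n) (he.le_one n) (-z)
    rw [Complex.neg_re, hre] at h3
    calc K * ‖NormedSpace.exp (-z • e n)‖ ≤ max K 1 * ‖NormedSpace.exp (-z • e n)‖ :=
          mul_le_mul_of_nonneg_right (le_max_left _ _) (norm_nonneg _)
      _ ≤ max K 1 * max 1 (‖1 + w0‖⁻¹) := mul_le_mul_of_nonneg_left h3 hK1.le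
  have hlow : ∀ n ξ, ‖ξ‖ ≤ m * ‖w (NormedSpace.exp (z • e n)) ξ‖ := by
    intro n ξ
    obtain ⟨a, ha, ha'⟩ := hunit n
    have h3 := hw.low a ξ
    rw [ha] at h3
    exact h3.trans (mul_le_mul_of_nonneg_right (hinvn n a ha') (norm_nonneg _))
  have hlow' : ∀ n ξ, ‖ξ‖ ≤ m * ‖star (w (NormedSpace.exp (z • e n))) ξ‖ := by
    intro n ξ
    obtain ⟨a, ha, ha'⟩ := hunit n
    have h3 := hw.low' a ξ
    rw [ha] at h3
    exact h3.trans (mul_le_mul_of_nonneg_right (hinvn n a ha') (norm_nonneg _))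
  have hG : ∀ ξ, ‖ξ‖ ≤ m * ‖(1 + w0 • Q) ξ‖ := by
    intro ξ
    have h3 := (hz z).1 ξ
    have h4 : w 1 ξ + (Complex.exp z - 1) • Q ξ = (1 + w0 • Q) ξ := by
      rw [hw.one, hexp]
      simp
    rw [h4] at h3
    exact ge_of_tendsto (h3.norm.const_mul m) (Eventually.of_forall fun n => hlow n ξ)
  have hG' : ∀ ξ, ‖ξ‖ ≤ m * ‖star (1 + w0 • Q) ξ‖ := by
    intro ξ
    have h3 := (hz z).2 ξ
    have h4 : star (w 1) ξ + star (Complex.exp z - 1) • star Q ξ = star (1 + w0 • Q) ξ := by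
      rw [hw.one, hexp, star_add, star_one, star_smul]
      simp
    rw [h4] at h3
    exact ge_of_tendsto (h3.norm.const_mul m) (Eventually.of_forall fun n => hlow' n ξ)
  exact Idem_inv _ m hmpos hG hG'

end H770R2.Spec
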